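import Pool.Agent.W900.CH.NELev

/-!
# How many strings of a random oracle have to be changed to put `NEXP` into `P/poly`?

The number of changes is measured by a function `g`: the oracle `A` is obtained from `O` by changing,
for all large `n`, at most `g n` of the strings of length at most `n`. If `g n ≤ 2 ^ (n ^ ε)` for
every `ε > 0` and infinitely many `n`, then `NEXP^A ⊄ P^A / poly` (in fact `NP^A ⊄ coNP^A / poly`)
for almost every oracle `O` and all oracles `A` that are obtained from `O` by at most `g` changes,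
however these changes depend on `O`.
Otherwise every oracle `O` can be changed, by at most `g` changes, into an oracle `A` with
`NEXP^A = BPP^A`, so `NEXP^A ⊆ P^A / poly`.

So the threshold is exactly at the functions which are not subexponential.
-/

set_option autoImplicit false

namespace Pool.Agent.Results.MP_70d3b5_lc.ChangedStrings

open Pool.Agent.NPC Pool.Agent.H620R2.Gauge Pool.Agent.W900.CH
open Pool.Agent.H628R3.RO (randomOracle)
open MeasureTheory

theorem result (g : ℕ → ℝ) :
    ((∀ ε : ℝ, 0 < ε → ∃ᶠ n : ℕ in Filter.atTop, g n ≤ 2 ^ (n : ℝ) ^ ε) →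
      ∀ᵐ O ∂randomOracle, ∀ A : Oracle, Close g O A →
        (∃ L, IsNEXP A L ∧ ¬ WithAdvice (IsP A) L) ∧
        ∃ L, IsNP A L ∧ ¬ WithAdvice (IsNP A) Lᶜ) ∧
    ((¬ ∀ ε : ℝ, 0 < ε → ∃ᶠ n : ℕ in Filter.atTop, g n ≤ 2 ^ (n : ℝ) ^ ε) →
      ∀ O : Oracle, ∃ A : Oracle, Close g O A ∧
        (∀ L, IsNEXP A L → IsBPP A L) ∧ ∀ L, IsNEXP A L → WithAdvice (IsP A) L) := by
  refine ⟨fun hg => ?_, fun hg O => ?_⟩
  · filter_upwards [ae_coNP hg] with O hO A hA
    obtain ⟨L, h1, h2⟩ := hO A hA
    exact ⟨⟨L, h1.isNEXP, fun h => h2 h.compl_np⟩, L, h1, h2⟩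
  · obtain ⟨A, h1, h2⟩ := exists_close_NEXP hg O
    exact ⟨A, h1, h2, fun L hL => (h2 L hL).withAdvice⟩

end Pool.Agent.Results.MP_70d3b5_lc.ChangedStrings
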